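import Pool.Agent.Helper93.CW.Blk

/-!
Plan W (MP_c75db0), star frame: rows KJ, TT, CH2, UDD.
-/

set_option autoImplicit false
noncomputable section
namespace Pool.Agent.Helper6.MONO.W2

open Matrix Filter Topology

theorem ep_addE (a b : ℝ) : ep (a + b) = ep a * ep b := by
  apply Complex.ext
  · simp [ep, Real.cos_add]
  · simp [ep, Real.sin_add]
    ring

theorem ep_zero : ep 0 = 1 := by
  apply Complex.ext <;> simp [ep]

theorem star_ep (a : ℝ) : star (ep a) = ep (-a) := by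
  apply Complex.ext <;> simp [ep]

theorem ep_pow (a : ℝ) (n : ℕ) : ep a ^ n = ep (n * a) := by
  induction n with
  | zero => simp [ep_zero]
  | succ n ih =>
    rw [pow_succ, ih, ← ep_addE]
    congr 1
    push_cast
    ring

theorem ep_dif (y : ℝ) : ep y - ep (-y) = 2 * Complex.I * ((Real.sin y : ℝ) : ℂ) := by
  rw [← star_ep]
  exact ep_sub y

theorem zx_re' (x : ℝ) : (zx x).re = x / 2 := rfl

theorem zx_im2 {x : ℝ} (h1 : -2 ≤ x) (h2 : x ≤ 2) : (zx x).im ^ 2 = 1 - (x / 2) ^ 2 := by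
  have h : (zx x).im = 1 * Real.sqrt (1 - (x / 2) ^ 2) := rfl
  rw [h, one_mul, Real.sq_sqrt (by nlinarith)]

theorem nrm_re_im (z : ℂ) : ‖z‖ ^ 2 = z.re ^ 2 + z.im ^ 2 := by
  rw [← Complex.normSq_eq_norm_sq, Complex.normSq_apply]
  ring

theorem nrm_lin (a b : ℝ) {x : ℝ} (h1 : -2 ≤ x) (h2 : x ≤ 2) :
    ‖(a : ℂ) + b * zx x‖ ^ 2 = a ^ 2 + b ^ 2 + a * b * x := by
  have hr : ((a : ℂ) + b * zx x).re = a + b * (x / 2) := by
    simp [zx_re']
  have hi : ((a : ℂ) + b * zx x).im = b * (zx x).im := by simp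
  rw [nrm_re_im, hr, hi]
  have := zx_im2 h1 h2
  linear_combination b ^ 2 * this

theorem kj0 {φ : ℝ} (hs : Real.sin φ ≠ 0) (k1 k2 : ℝ) (a : Bool) (k : ℕ) (y : ℝ) {x : ℝ}
    (h1 : -2 ≤ x) (h2 : x ≤ 2) (he : star (ev φ a k) = ep (-(2 * y))) :
    ‖cj φ k1 k2 a k x‖ ^ 2 * Real.sin φ ^ 2 =
      k1 ^ 2 * Real.sin y ^ 2 + k2 ^ 2 * Real.sin (y + φ) ^ 2 +
        k1 * k2 * x * Real.sin y * Real.sin (y + φ) := by
  have hs' : ((Real.sin φ : ℝ) : ℂ) ≠ 0 := by exact_mod_cast hs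
  have e1 : 1 - star (ev φ a k) = ep (-y) * (2 * Complex.I * ((Real.sin y : ℝ) : ℂ)) := by
    rw [he, ← ep_dif, mul_sub, ← ep_addE, ← ep_addE, neg_add_cancel, ep_zero]
    congr 2
    ring
  have e2 : ep φ - star (ep φ) * star (ev φ a k) =
      ep (-y) * (2 * Complex.I * ((Real.sin (y + φ) : ℝ) : ℂ)) := by
    rw [he, ← ep_dif, mul_sub, ← ep_addE, ← ep_addE, star_ep, ← ep_addE]
    congr 2
    · ring
    · ring
  have e3 : cj φ k1 k2 a k x * ((Real.sin φ : ℝ) : ℂ) =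
      -ep (-y) * (((k1 * Real.sin y : ℝ) : ℂ) + ((k2 * Real.sin (y + φ) : ℝ) : ℂ) * zx x) := by
    have e4 : cj φ k1 k2 a k x * ((Real.sin φ : ℝ) : ℂ) =
        Complex.I / 2 * ((k1 : ℂ) * (1 - star (ev φ a k)) +
          (k2 : ℂ) * zx x * (ep φ - star (ep φ) * star (ev φ a k))) := by
      unfold cj sA sB
      generalize ((Real.sin φ : ℝ) : ℂ) = s at *
      field_simp
      ring
    rw [e4, e1, e2]
    push_cast
    linear_combination (ep (-y) * ((k1 : ℂ) * Complex.sin y + k2 * zx x * Complex.sin (y + φ))) *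
      Complex.I_sq
  have e5 : ‖cj φ k1 k2 a k x * ((Real.sin φ : ℝ) : ℂ)‖ ^ 2 =
      ‖((k1 * Real.sin y : ℝ) : ℂ) + ((k2 * Real.sin (y + φ) : ℝ) : ℂ) * zx x‖ ^ 2 := by
    rw [e3, norm_mul, norm_neg, ep_norm, one_mul]
  rw [nrm_lin _ _ h1 h2, norm_mul, Complex.norm_real, Real.norm_eq_abs, mul_pow, sq_abs] at e5
  rw [e5]
  ring

/-- **Row KJ.** -/
theorem st_KJ : ST_KJ := by
  intro p q r hp hq hr a k x h1 h2 hk
  have hs := phi_sin hp
  cases a
  · have he : star (ev (phi p) false k) = ep (-(2 * (((k : ℝ) - 1) * phi p / 2))) := by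
      have : ev (phi p) false k = ep (phi p) ^ (k - 1) := rfl
      rw [this, ep_pow, star_ep, Nat.cast_sub hk]
      congr 1
      push_cast
      ring
    have h := kj0 hs (Kp q) (Kp r) false k _ h1 h2 he
    have e : ((k : ℝ) - 1) * phi p / 2 + phi p = ((k : ℝ) + 1) * phi p / 2 := by ring
    rw [e] at h
    simpa using h
  · have he : star (ev (phi p) true k) = ep (-(2 * (-(((k : ℝ) + 1) * phi p / 2)))) := by
      have : ev (phi p) true k = star (ep (phi p)) ^ (k + 1) := rfl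
      rw [this, star_ep, ep_pow, star_ep]
      congr 1
      push_cast
      ring
    have h := kj0 hs (Kp q) (Kp r) true k _ h1 h2 he
    have e : -(((k : ℝ) + 1) * phi p / 2) + phi p = -(((k : ℝ) - 1) * phi p / 2) := by ring
    rw [e, Real.sin_neg, Real.sin_neg] at h
    simp only [if_true]
    rw [h]
    ring

theorem four_sub (p : ℕ) : 4 - Kp p ^ 2 = 4 * Real.sin (phi p) ^ 2 := by
  have h := Real.sin_sq_add_cos_sq (phi p)
  have e : Kp p = 2 * Real.cos (phi p) := rfl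
  rw [e]
  linear_combination (-4) * h

theorem tt_eq {φ : ℝ} (hs : Real.sin φ ≠ 0) (k1 k2 : ℝ) {x : ℝ} (h1 : -2 ≤ x) (h2 : x ≤ 2) :
    (tt φ k1 k2 x + 2) * (4 * Real.sin φ ^ 2) =
      2 * k1 ^ 2 + 2 * k2 ^ 2 + 2 * Real.cos φ * k1 * k2 * x := by
  have key : ∀ y : ℝ, ‖(k1 : ℂ) + (k2 : ℂ) * zx x * ep y‖ ^ 2 =
      (k1 + k2 * ((x / 2) * Real.cos y - (zx x).im * Real.sin y)) ^ 2 +
      (k2 * ((x / 2) * Real.sin y + (zx x).im * Real.cos y)) ^ 2 := by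
    intro y
    have hr : ((k1 : ℂ) + (k2 : ℂ) * zx x * ep y).re =
        k1 + k2 * ((x / 2) * Real.cos y - (zx x).im * Real.sin y) := by
      simp [ep, zx_re']
      ring
    have hi : ((k1 : ℂ) + (k2 : ℂ) * zx x * ep y).im =
        k2 * ((x / 2) * Real.sin y + (zx x).im * Real.cos y) := by
      simp [ep, zx_re']
      ring
    rw [nrm_re_im, hr, hi]
  have hA : ‖sA φ k1 k2 (zx x)‖ ^ 2 * (4 * Real.sin φ ^ 2) =
      ‖(k1 : ℂ) + (k2 : ℂ) * zx x * ep φ‖ ^ 2 := by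
    unfold sA
    rw [norm_div, norm_mul, norm_mul, Complex.norm_I, one_mul, Complex.norm_real,
      Complex.norm_ofNat, Real.norm_eq_abs, div_pow, mul_pow, sq_abs]
    field_simp
    ring
  have hB : ‖sB φ k1 k2 (zx x)‖ ^ 2 * (4 * Real.sin φ ^ 2) =
      ‖(k1 : ℂ) + (k2 : ℂ) * zx x * ep (-φ)‖ ^ 2 := by
    unfold sB
    rw [norm_neg, norm_div, norm_mul, norm_mul, Complex.norm_I, one_mul, Complex.norm_real,
      Complex.norm_ofNat, Real.norm_eq_abs, div_pow, mul_pow, sq_abs, star_ep]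
    field_simp
    ring
  have e : (tt φ k1 k2 x + 2) * (4 * Real.sin φ ^ 2) =
      ‖sA φ k1 k2 (zx x)‖ ^ 2 * (4 * Real.sin φ ^ 2) +
      ‖sB φ k1 k2 (zx x)‖ ^ 2 * (4 * Real.sin φ ^ 2) := by
    unfold tt
    ring
  rw [e, hA, hB, key, key, Real.cos_neg, Real.sin_neg]
  have h3 := zx_im2 h1 h2
  have h4 := Real.sin_sq_add_cos_sq φ
  have h5 : (zx x).im ^ 2 * (Real.sin φ ^ 2 + Real.cos φ ^ 2) = 1 - (x / 2) ^ 2 := by
    rw [h4, mul_one, h3]
  linear_combination (2 * k2 ^ 2) * h5 + (2 * k2 ^ 2 * (x / 2) ^ 2) * h4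

/-- **Row TT.** -/
theorem st_TT : ST_TT := by
  intro p q r hp hq hr x h1 h2
  have hs := phi_sin hp
  have key : ∀ x : ℝ, -2 ≤ x → x ≤ 2 → (tt (phi p) (Kp q) (Kp r) x + 2) * (4 - Kp p ^ 2) =
      2 * Kp q ^ 2 + 2 * Kp r ^ 2 + Kp p * Kp q * Kp r * x := by
    intro x h1 h2
    rw [four_sub, tt_eq hs _ _ h1 h2]
    rfl
  refine ⟨key x h1 h2, ?_⟩
  intro h3 h4
  have hd := ((tt_deriv (phi p) (Kp q) (Kp r) h3 h4).add_const 2).mul_const (4 - Kp p ^ 2)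
  have hd2 : HasDerivAt (fun x => 2 * Kp q ^ 2 + 2 * Kp r ^ 2 + Kp p * Kp q * Kp r * x)
      (Kp p * Kp q * Kp r) x := by
    have := ((hasDerivAt_id x).const_mul (Kp p * Kp q * Kp r)).const_add
      (2 * Kp q ^ 2 + 2 * Kp r ^ 2)
    simpa using this
  have hev : (fun x => (tt (phi p) (Kp q) (Kp r) x + 2) * (4 - Kp p ^ 2)) =ᶠ[𝓝 x]
      fun x => 2 * Kp q ^ 2 + 2 * Kp r ^ 2 + Kp p * Kp q * Kp r * x := by
    filter_upwards [Ioo_mem_nhds h3 h4] with y hy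
    exact key y hy.1.le hy.2.le
  exact (hd.congr_of_eventuallyEq hev.symm).unique hd2

/-- **Row CH2.** -/
theorem st_CH2 : ST_CH2 := by
  intro κ hκ n
  induction n with
  | zero =>
    refine ⟨?_, ?_, ?_, ?_, ?_, ?_⟩ <;> simp [Us, Ud]
  | succ n ih =>
    obtain ⟨h1, h2, h3, h4, h5, h6⟩ := ih
    have hU : Us κ (n + 1 + 1) = κ * Us κ (n + 1) - Us κ n := rfl
    have hD : Ud κ (n + 1 + 1) = Us κ (n + 1) + κ * Ud κ (n + 1) - Ud κ n := rfl
    have p1 : 0 ≤ Us κ (n + 1) := by linarith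
    have p3 : 0 ≤ Ud κ (n + 1) := by linarith
    refine ⟨p1, ?_, p3, ?_, ?_, ?_⟩
    · rw [hU]
      nlinarith
    · rw [hD]
      nlinarith
    · rw [hU]
      linear_combination h5
    · rw [hU, hD]
      linear_combination h6

/-- **Row UDD.** -/
theorem st_UDD : ST_UDD := fun n κ => (Us_deriv n κ).1

end Pool.Agent.Helper6.MONO.W2
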