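import Pool.Agent.Helper12.CW.NF0

/-!
Plan W (MP_c75db0), normalised star frame: row NR1, the matrix of a run of reflections and its
derivative. Everything is computed in the span of the outer products of `s`, `v`, `vd`.
-/

set_option autoImplicit false
noncomputable section
namespace Pool.Agent.Helper6.MONO.W2

open Matrix

/-- outer product with `J1` -/
def oN (u w : V3) : Mt :=
  Matrix.of (fun i j => u i * ![star (w 0), star (w 1), -star (w 2)] j)

theorem oN_mul (a b c d : V3) : oN a b * oN c d = brJ 1 c b • oN a d := by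
  ext i j
  rw [Matrix.mul_apply, Fin.sum_univ_three]
  simp only [oN, brJ, Matrix.of_apply, Matrix.smul_apply, smul_eq_mul, Matrix.cons_val]
  push_cast
  ring

theorem oN_addl (a b w : V3) : oN (a + b) w = oN a w + oN b w := by
  ext i j
  simp only [oN, Matrix.of_apply, Matrix.add_apply, Pi.add_apply]
  ring

theorem oN_smull (c : ℂ) (a w : V3) : oN (c • a) w = c • oN a w := by
  ext i j
  simp only [oN, Matrix.of_apply, Matrix.smul_apply, Pi.smul_apply, smul_eq_mul]
  ring

theorem oN_addr (a b w : V3) : oN w (a + b) = oN w a + oN w b := by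
  ext i j
  simp only [oN, Matrix.of_apply, Matrix.add_apply, Pi.add_apply, star_add]
  rcases fin3 j with rfl | rfl | rfl
  · simp only [Matrix.cons_val]
    ring
  · simp only [Matrix.cons_val]
    ring
  · simp only [Matrix.cons_val]
    ring

theorem oN_smulr (c : ℂ) (a w : V3) : oN w (c • a) = star c • oN w a := by
  ext i j
  simp only [oN, Matrix.of_apply, Matrix.smul_apply, Pi.smul_apply, smul_eq_mul, star_mul']
  rcases fin3 j with rfl | rfl | rfl
  · simp only [Matrix.cons_val]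
    ring
  · simp only [Matrix.cons_val]
    ring
  · simp only [Matrix.cons_val]
    ring

theorem rfJ_oN (V : V3) : rfJ 1 V = 1 - oN V V := by
  ext i j
  simp only [rfJ, oN, Matrix.sub_apply, Matrix.of_apply]
  rcases fin3 j with rfl | rfl | rfl <;> simp [Matrix.cons_val]

theorem rfd_oN (V V' : V3) : rfd 1 0 V V' = -(oN V' V + oN V V') := by
  ext i j
  simp only [rfd, oN, Matrix.neg_apply, Matrix.add_apply, Matrix.of_apply]
  rcases fin3 j with rfl | rfl | rfl <;> simp [Matrix.cons_val]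

/-- `nR` -/
theorem nR_oN (w ρ : ℝ) (s v : V3) : nR w ρ s v =
    oN s s - (ρ : ℂ) • oN s v - (ρ : ℂ) • oN v s + ((ρ : ℂ) ^ 2) • oN v v
      - ((w + ρ ^ 2 - w * ρ : ℝ) : ℂ) • (1 : Mt) := by
  have ha : star (ρ : ℂ) = (ρ : ℂ) := Complex.conj_ofReal ρ
  ext i j
  simp only [nR, oN, Matrix.sub_apply, Matrix.add_apply, Matrix.smul_apply, Matrix.of_apply,
    smul_eq_mul, star_sub, star_mul', ha]
  rcases fin3 j with rfl | rfl | rfl
  · simp only [Matrix.cons_val]
    ring
  · simp only [Matrix.cons_val]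
    ring
  · simp only [Matrix.cons_val]
    ring

/-- `nRd` with `sd = q s` -/
theorem nRd_oN (wd ρ : ℝ) (q : ℂ) (s v d : V3) : nRd wd ρ s (q • s) v d =
    (q + star q) • oN s s - (q * ρ) • oN s v - (star q * ρ) • oN v s
      - (ρ : ℂ) • oN d s - (ρ : ℂ) • oN s d + ((ρ : ℂ) ^ 2) • oN d v + ((ρ : ℂ) ^ 2) • oN v d
      - ((wd - wd * ρ : ℝ) : ℂ) • (1 : Mt) := by
  have ha : star (ρ : ℂ) = (ρ : ℂ) := Complex.conj_ofReal ρ
  ext i j
  simp only [nRd, oN, Matrix.sub_apply, Matrix.add_apply, Matrix.smul_apply, Matrix.of_apply,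
    smul_eq_mul, star_sub, star_mul', ha, Pi.smul_apply]
  rcases fin3 j with rfl | rfl | rfl
  · simp only [Matrix.cons_val]
    ring
  · simp only [Matrix.cons_val]
    ring
  · simp only [Matrix.cons_val]
    ring

theorem nRr_oN (w ρ : ℝ) (s v : V3) : nRr w ρ s v =
    oN v s + oN s v - (2 * (ρ : ℂ)) • oN v v + ((2 * ρ - w : ℝ) : ℂ) • (1 : Mt) := by
  have ha : star (ρ : ℂ) = (ρ : ℂ) := Complex.conj_ofReal ρ
  ext i j
  simp only [nRr, oN, Matrix.sub_apply, Matrix.add_apply, Matrix.smul_apply, Matrix.of_apply,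
    smul_eq_mul, star_sub, star_mul', ha]
  rcases fin3 j with rfl | rfl | rfl
  · simp only [Matrix.cons_val]
    ring
  · simp only [Matrix.cons_val]
    ring
  · simp only [Matrix.cons_val]
    ring

/-- the step of the induction -/
theorem nr_step (w ρ h1 h2 wd : ℝ) (q β : ℂ) (s v d : V3) (hw : w ≠ 0) (hρ : w - ρ ≠ 0)
    (hwd : (wd : ℂ) = (q + star q) * w)
    (e1 : brJ 1 s s = 2 * w) (e2 : brJ 1 v v = 2) (e3 : brJ 1 v s = w) (e4 : brJ 1 s v = w)
    (e5 : brJ 1 d s = q * w) (e6 : brJ 1 s d = star q * w) (e7 : brJ 1 d v = β)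
    (e8 : brJ 1 v d = -β) :
    let C : Mt := 1 - oN v v
    let S : Mt := 1 - ((1 / w : ℝ) : ℂ) • oN s s
    let Cd : Mt := -(oN d v + oN v d)
    let ρ' := w / (w - ρ)
    let f := (w - ρ) ^ 2 / w
    let h2' := (ρ + w * h2) / (w - ρ) ^ 2
    let h1' := h1 + 2 * (1 + h2) / (w - ρ) - 1 / w
    nR w ρ s v * (C * S) = (f : ℂ) • nR w ρ' s v ∧
    (nRd wd ρ s (q • s) v d + (wd : ℂ) • ((h1 : ℂ) • nR w ρ s v + (h2 : ℂ) • nRr w ρ s v)) *
        (C * S) + nR w ρ s v * (Cd * S) =
      (f : ℂ) • (nRd wd ρ' s (q • s) v d +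
        (wd : ℂ) • ((h1' : ℂ) • nR w ρ' s v + (h2' : ℂ) • nRr w ρ' s v)) := by
  have hwC : (w : ℂ) ≠ 0 := by exact_mod_cast hw
  have hρC : (w : ℂ) - ρ ≠ 0 := by exact_mod_cast hρ
  intro C S Cd ρ' f h2' h1'
  have hCS : C * S = 1 - oN v v - ((1 / w : ℝ) : ℂ) • oN s s + oN v s := by
    simp only [C, S, sub_mul, mul_sub, one_mul, mul_one, mul_smul_comm, oN_mul, e4]
    match_scalars
    all_goals (push_cast; field_simp; try ring)
  have hCdS : Cd * S = -(oN d v + oN v d) + oN d s + star q • oN v s := by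
    simp only [Cd, S, mul_sub, mul_one, mul_smul_comm, neg_mul, add_mul, oN_mul, e4, e6]
    match_scalars
    all_goals (push_cast; field_simp; try ring)
  constructor
  · rw [hCS]
    simp only [nR_oN, sub_mul, mul_sub, add_mul, mul_add, one_mul, mul_one, mul_smul_comm,
      smul_mul_assoc, oN_mul, e1, e2, e3, e4, smul_smul]
    match_scalars
    all_goals (simp only [f, ρ']; push_cast; field_simp; try ring)
  · rw [hCS, hCdS]
    simp only [nR_oN, nRd_oN, nRr_oN, sub_mul, mul_sub, add_mul, mul_add, one_mul, mul_one,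
      mul_smul_comm, smul_mul_assoc, oN_mul, e1, e2, e3, e4, e5, e6, e7, e8, smul_smul, smul_add,
      smul_sub, mul_neg, hwd]
    match_scalars
    all_goals (simp only [f, ρ', h1', h2']; push_cast; try simp only [hwd])
    all_goals (field_simp; try ring)


theorem ep_star_mul (φ : ℝ) : ep φ * star (ep φ) = 1 := by
  apply Complex.ext
  · simp [ep]
    nlinarith [Real.cos_sq_add_sin_sq φ]
  · simp [ep]
    ring

theorem ev_star_mul (φ : ℝ) (a : Bool) (k : ℕ) : ev φ a k * star (ev φ a k) = 1 := by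
  have h := ep_star_mul φ
  cases a
  · simp only [ev, Bool.false_eq_true, if_false, star_pow, ← mul_pow, h, one_pow]
  · simp only [ev, if_true, star_pow, star_star, ← mul_pow]
    rw [mul_comm (star (ep φ)), h, one_pow]

theorem sDm_odd (φ : ℝ) (a : Bool) (k : ℕ) (hk : k % 2 = 1) :
    sDm φ a k = 1 - oN ![1, ev φ a k, 0] ![1, ev φ a k, 0] := by
  have hk' : ¬ k % 2 = 0 := by omega
  have he := ev_star_mul φ a k
  have h2 : sDm φ a k = !![0, -star (ev φ a k), 0; -(ev φ a k), 0, 0; 0, 0, 1] := by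
    cases a
    · simp only [sDm, ev, hk', if_false, Bool.false_eq_true, star_pow]
    · simp only [sDm, ev, hk', if_false, if_true, star_pow, star_star]
  have he' : ev φ a k * (starRingEnd ℂ) (ev φ a k) = 1 := he
  rw [h2]
  ext i j
  fin_cases i <;> fin_cases j <;> simp [oN, he']

theorem rn_eqN (κ : ℝ) (hκ : κ ≠ 0) (m : ℕ) (h : ∀ i, 1 ≤ i → i ≤ m + 1 → 0 < Us κ i) :
    rn (κ ^ 2) (m + 1) = κ * Us κ m / Us κ (m + 1) := by
  induction m with
  | zero => simp [rn, Us]
  | succ m ih =>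
    have ih' := ih (fun i h1 h2 => h i h1 (by omega))
    have hm : 0 < Us κ (m + 1) := h (m + 1) (by omega) (by omega)
    have hm2 : 0 < Us κ (m + 2) := h (m + 2) (by omega) (by omega)
    have e : Us κ (m + 2) = κ * Us κ (m + 1) - Us κ m := rfl
    have e2 : rn (κ ^ 2) (m + 2) = κ ^ 2 / (κ ^ 2 - rn (κ ^ 2) (m + 1)) := rfl
    rw [e2, ih']
    have e3 : κ ^ 2 - κ * Us κ m / Us κ (m + 1) = κ * Us κ (m + 2) / Us κ (m + 1) := by
      rw [e]
      field_simp
    rw [e3]
    have := hm.ne'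
    have := hm2.ne'
    field_simp

/-- ROW NR1 -/
theorem st_NR1 : ST_NR1 := by
  intro φ v d a k m hk hc hv hd hU
  set c := nc φ v a k with hcdef
  set κ := ‖c‖ with hκdef
  have hκ : κ ≠ 0 := norm_ne_zero_iff.mpr hc
  set w : ℝ := κ ^ 2 with hwdef
  have hw : w ≠ 0 := pow_ne_zero 2 hκ
  set q : ℂ := nc φ d a k / c with hq
  have hcc : c * star c = (w : ℂ) := by
    rw [hwdef, hκdef]
    have := Complex.mul_conj' c
    rw [show (star c : ℂ) = (starRingEnd ℂ) c from rfl, this]
    push_cast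
    ring
  have hqc : nc φ d a k = q * c := by
    rw [hq]
    field_simp
  set wd : ℝ := 2 * (nc φ d a k * star c).re with hwddef
  have hq2 : nc φ d a k * star c = q * w := by
    rw [hqc, ← hcc]
    ring
  have hwd : (wd : ℂ) = (q + star q) * w := by
    have h1 : (wd : ℂ) = nc φ d a k * star c + star (nc φ d a k * star c) := by
      apply Complex.ext
      · simp [hwddef]
        ring
      · simp [hwddef]
        ring
    rw [h1, hq2, star_mul']
    have : star (w : ℂ) = (w : ℂ) := Complex.conj_ofReal w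
    rw [this]
    ring
  set s : V3 := ns φ v a k with hs
  have hsd : nsd φ d a k = q • s := by
    rw [hs]
    unfold nsd ns
    rw [smul_smul, hqc]
  have he := ev_star_mul φ a k
  have e1 : brJ 1 s s = 2 * w := by
    rw [hs, ← hcc, hcdef]
    unfold ns
    simp only [brJ, Pi.smul_apply, smul_eq_mul, Matrix.cons_val, star_mul', star_one, star_zero]
    linear_combination (nc φ v a k * star (nc φ v a k)) * he
  have e3 : brJ 1 v s = w := by
    rw [hs, ← hcc, hcdef]
    unfold ns
    simp only [brJ, Pi.smul_apply, smul_eq_mul, Matrix.cons_val, star_mul', star_one, star_zero]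
    simp only [nc]
    ring
  have hsym : ∀ x y : V3, brJ 1 x y = star (brJ 1 y x) := by
    intro x y
    simp only [brJ, star_sub, star_add, star_mul', star_star]
    push_cast
    simp
    ring
  have e4 : brJ 1 s v = w := by
    rw [hsym, e3]
    exact Complex.conj_ofReal w
  have e5 : brJ 1 d s = q * w := by
    rw [← hq2, hs, hcdef]
    unfold ns
    simp only [brJ, Pi.smul_apply, smul_eq_mul, Matrix.cons_val, star_mul', star_one, star_zero]
    simp only [nc]
    ring
  have e6 : brJ 1 s d = star q * w := by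
    rw [hsym, e5, star_mul']
    congr 1
    exact Complex.conj_ofReal w
  have e8 : brJ 1 v d = -brJ 1 d v := by
    rw [hsym]
    apply Complex.ext
    · simp [hd]
    · simp
  have hS : sDm φ a k = 1 - ((1 / w : ℝ) : ℂ) • oN s s := by
    rw [sDm_odd φ a k hk, hs]
    unfold ns
    rw [oN_smull, oN_smulr, smul_smul, smul_smul, ← hcdef, mul_assoc, hcc]
    have : ((1 / w : ℝ) : ℂ) * (w : ℂ) = 1 := by
      rw [← Complex.ofReal_mul]
      have : 1 / w * w = 1 := by field_simp
      rw [this]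
      simp
    rw [this, one_smul]
  show nM φ v a k m = ((-(Us κ (m + 1) ^ 2 / w) : ℝ) : ℂ) • nR w (rn w (m + 1)) s v ∧
    nMd φ v d a k m = ((-(Us κ (m + 1) ^ 2 / w) : ℝ) : ℂ) •
      (nRd wd (rn w (m + 1)) s (nsd φ d a k) v d +
    ((wd : ℝ) : ℂ) • (((h1 w (m + 1) : ℝ) : ℂ) • nR w (rn w (m + 1)) s v +
      ((h2 w (m + 1) : ℝ) : ℂ) • nRr w (rn w (m + 1)) s v))
  rw [hsd]
  clear_value c κ q wd s
  induction m with
  | zero =>
    have hwC : (w : ℂ) ≠ 0 := by exact_mod_cast hw
    constructor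
    · show sDm φ a k = _
      rw [hS, nR_oN]
      simp only [rn, Us]
      match_scalars
      all_goals (push_cast; field_simp; try ring)
    · show (0 : Mt) = _
      rw [nR_oN, nRd_oN, nRr_oN]
      simp only [rn, Us, h1, h2, hwd]
      match_scalars
      all_goals (push_cast; try simp only [hwd])
      all_goals (field_simp; try ring)
  | succ m ih =>
    obtain ⟨i1, i2⟩ := ih (fun i h1 h2 => hU i h1 (by omega))
    have hm : 0 < Us κ (m + 1) := hU (m + 1) (by omega) (by omega)
    have hm2 : 0 < Us κ (m + 2) := hU (m + 2) (by omega) (by omega)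
    have hr := rn_eqN κ hκ m (fun i h1 h2 => hU i h1 (by omega))
    have e : Us κ (m + 2) = κ * Us κ (m + 1) - Us κ m := rfl
    have hr2 : w - rn w (m + 1) = κ * Us κ (m + 2) / Us κ (m + 1) := by
      rw [hwdef, hr, e]
      field_simp
    have hρ : w - rn w (m + 1) ≠ 0 := by
      rw [hr2]
      exact div_ne_zero (mul_ne_zero hκ hm2.ne') hm.ne'
    have hσ : Us κ (m + 1) ^ 2 / w * ((w - rn w (m + 1)) ^ 2 / w) = Us κ (m + 2) ^ 2 / w := by
      rw [hr2, hwdef]
      have := hm.ne'
      field_simp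
    obtain ⟨t1, t2⟩ := nr_step w (rn w (m + 1)) (h1 w (m + 1)) (h2 w (m + 1)) wd q (brJ 1 d v) s v d
      hw hρ hwd e1 hv e3 e4 e5 e6 rfl e8
    simp only [← rfJ_oN, ← rfd_oN, ← hS] at t1 t2
    have hneg : ∀ X : Mt, ((-(Us κ (m + 2) ^ 2 / w) : ℝ) : ℂ) • X =
        ((-(Us κ (m + 1) ^ 2 / w) : ℝ) : ℂ) •
          ((((w - rn w (m + 1)) ^ 2 / w : ℝ) : ℂ) • X) := by
      intro X
      rw [smul_smul, ← hσ]
      congr 1
      push_cast
      ring
    constructor
    · show nM φ v a k m * (rfJ 1 v * sDm φ a k) = _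
      rw [i1, smul_mul_assoc, t1, hneg]
      rfl
    · show nMd φ v d a k m * (rfJ 1 v * sDm φ a k) + nM φ v a k m * (rfd 1 0 v d * sDm φ a k) = _
      rw [i1, i2, smul_mul_assoc, smul_mul_assoc, ← smul_add, t2, hneg]
      rfl

end Pool.Agent.Helper6.MONO.W2
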