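import Pool.Agent.Helper12.CW.SR0
import Pool.Agent.Helper21.CX.CAN

/-!
Plan W (MP_c75db0): every word is equivalent to a word of admissible blocks up to short ends.
-/

set_option autoImplicit false

namespace Pool.Agent.Helper6.MONO.W2

open Pool.Agent.Helper21.C75 (alt_zero alt_succ alt_length alt_last alt_add lst lst_zero lst_succ
  Good exists_good)

/-- the letter -/
def ltr (a : Bool) : Fin 3 := if a then 1 else 0

theorem syl_eq (a : Bool) (k : ℕ) : syl a k = alt (ltr a) (ltr !a) k ++ [2] := by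
  cases a <;> rfl

theorem syl_one (a : Bool) : syl a 1 = [ltr a, 2] := by cases a <;> rfl

theorem ltr_ne (a : Bool) : ltr a ≠ ltr !a := by cases a <;> decide

theorem ltr_ne2 (a : Bool) : ltr a ≠ 2 := by cases a <;> decide

theorem lst_ltr (a : Bool) (k : ℕ) (hk : 1 ≤ k) : lst (ltr a) (ltr !a) (k - 1) = ltr (lsE a k) := by
  unfold lst lsE
  rcases Nat.mod_two_eq_zero_or_one k with h | h
  · have h1 : (k - 1) % 2 = 1 := by omega
    simp [h, h1]
  · have h1 : (k - 1) % 2 = 0 := by omega
    simp [h, h1]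

theorem syl_last (a : Bool) (k : ℕ) (hk : 1 ≤ k) :
    syl a k = alt (ltr a) (ltr !a) (k - 1) ++ [ltr (lsE a k), 2] := by
  rw [syl_eq]
  obtain ⟨m, rfl⟩ : ∃ m, k = m + 1 := ⟨k - 1, by omega⟩
  rw [alt_last, ← lst_ltr a (m + 1) hk]
  simp

theorem syl_first (a : Bool) (k : ℕ) (hk : 1 ≤ k) : ∃ v, syl a k = ltr a :: v := by
  rw [syl_eq]
  obtain ⟨m, rfl⟩ : ∃ m, k = m + 1 := ⟨k - 1, by omega⟩
  exact ⟨alt (ltr !a) (ltr a) m ++ [2], by rw [alt_succ, List.cons_append]⟩

/-- the word of a list of syllables -/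
def fl (S : List (Bool × ℕ)) : List (Fin 3) := (S.map (fun s => syl s.1 s.2)).flatten

theorem fl_nil : fl [] = [] := rfl

theorem fl_cons (s : Bool × ℕ) (S : List (Bool × ℕ)) : fl (s :: S) = syl s.1 s.2 ++ fl S := by
  simp [fl]

theorem fl_append (S T : List (Bool × ℕ)) : fl (S ++ T) = fl S ++ fl T := by
  simp [fl]

/-- normalisation of the long element -/
def nr (p : ℕ) (s : Bool × ℕ) : Bool × ℕ := if s.2 = p then (false, s.2) else s

theorem nr_snd (p : ℕ) (s : Bool × ℕ) : (nr p s).2 = s.2 := by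
  unfold nr; split <;> rfl

theorem nr_lt (p : ℕ) (s : Bool × ℕ) (h : (nr p s).2 < p) : nr p s = s := by
  rw [nr_snd] at h
  unfold nr
  rw [if_neg (by omega)]

theorem nr_fst (p : ℕ) (s : Bool × ℕ) (hs : s.2 ≤ p) (h : (nr p s).1 = true) :
    (nr p s).2 < p := by
  rw [nr_snd]
  unfold nr at h
  by_cases h1 : s.2 = p
  · rw [if_pos h1] at h
    simp at h
  · omega

/-- grouping -/
def grp : List (Bool × ℕ) → List SBl
  | [] => []
  | s :: S => match grp S with
    | [] => [⟨s.1, s.2, 1⟩]
    | b :: bs => if b.a = s.1 ∧ b.k = s.2 ∧ s.2 % 2 = 1 then ⟨s.1, s.2, b.n + 1⟩ :: bs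
        else ⟨s.1, s.2, 1⟩ :: b :: bs

theorem grp_nil : grp [] = [] := rfl

theorem grp_cons_nil (s : Bool × ℕ) (S : List (Bool × ℕ)) (h : grp S = []) :
    grp (s :: S) = [⟨s.1, s.2, 1⟩] := by
  rw [grp, h]

theorem grp_cons_pos (s : Bool × ℕ) (S : List (Bool × ℕ)) (b : SBl) (bs : List SBl)
    (h : grp S = b :: bs) (hc : b.a = s.1 ∧ b.k = s.2 ∧ s.2 % 2 = 1) :
    grp (s :: S) = ⟨s.1, s.2, b.n + 1⟩ :: bs := by
  rw [grp, h]
  exact if_pos hc

theorem grp_cons_neg (s : Bool × ℕ) (S : List (Bool × ℕ)) (b : SBl) (bs : List SBl)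
    (h : grp S = b :: bs) (hc : ¬ (b.a = s.1 ∧ b.k = s.2 ∧ s.2 % 2 = 1)) :
    grp (s :: S) = ⟨s.1, s.2, 1⟩ :: b :: bs := by
  rw [grp, h]
  exact if_neg hc

theorem wd_one (a : Bool) (k : ℕ) : SBl.wd ⟨a, k, 1⟩ = syl a k := by
  simp [SBl.wd]

theorem wd_succ (a : Bool) (k n : ℕ) : SBl.wd ⟨a, k, n + 1⟩ = syl a k ++ SBl.wd ⟨a, k, n⟩ := by
  simp [SBl.wd, List.replicate_succ]

theorem grp_wd (S : List (Bool × ℕ)) : ((grp S).map SBl.wd).flatten = fl S := by
  induction S with
  | nil => rfl
  | cons s S ih =>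
    rw [fl_cons, ← ih]
    rcases hg : grp S with _ | ⟨b, bs⟩
    · rw [grp_cons_nil s S hg]
      simp [wd_one]
    · by_cases hc : b.a = s.1 ∧ b.k = s.2 ∧ s.2 % 2 = 1
      · rw [grp_cons_pos s S b bs hg hc]
        have hb : b = ⟨s.1, s.2, b.n⟩ := by
          obtain ⟨a, k, n⟩ := b
          simp only at hc
          rw [hc.1, hc.2.1]
        rw [List.map_cons, List.flatten_cons, List.map_cons, List.flatten_cons, wd_succ,
          List.append_assoc]
        congr 2
        rw [← hb]
      · rw [grp_cons_neg s S b bs hg hc, List.map_cons, List.flatten_cons, wd_one]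

theorem grp_ne (s : Bool × ℕ) (S : List (Bool × ℕ)) : grp (s :: S) ≠ [] := by
  rcases hg : grp S with _ | ⟨b, bs⟩
  · rw [grp_cons_nil s S hg]; simp
  · by_cases hc : b.a = s.1 ∧ b.k = s.2 ∧ s.2 % 2 = 1
    · rw [grp_cons_pos s S b bs hg hc]; simp
    · rw [grp_cons_neg s S b bs hg hc]; simp

/-! ### alternating words made of the letters `2` and `x` -/

theorem alt_rep1 (x : Fin 3) (n : ℕ) :
    alt 2 x (2 * n + 1) = 2 :: (List.replicate n [x, 2]).flatten := by
  induction n with
  | zero => rfl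
  | succ n ih =>
    have e : 2 * (n + 1) + 1 = 2 * n + 1 + 1 + 1 := by ring
    rw [e, alt_succ, alt_succ, ih, List.replicate_succ, List.flatten_cons]
    rfl

theorem alt_rep2 (x : Fin 3) (n : ℕ) :
    alt 2 x (2 * n + 2) = 2 :: (List.replicate n [x, 2]).flatten ++ [x] := by
  induction n with
  | zero => rfl
  | succ n ih =>
    have e : 2 * (n + 1) + 2 = 2 * n + 2 + 1 + 1 := by ring
    rw [e, alt_succ, alt_succ, ih, List.replicate_succ, List.flatten_cons]
    rfl

theorem alt_rep3 (x : Fin 3) (n : ℕ) :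
    alt x 2 (2 * n + 2) = x :: 2 :: (List.replicate n [x, 2]).flatten := by
  have e : 2 * n + 2 = 2 * n + 1 + 1 := by ring
  rw [e, alt_succ, alt_rep1]

theorem fl_rep (a : Bool) (n : ℕ) :
    fl (List.replicate n (a, 1)) = (List.replicate n [ltr a, 2]).flatten := by
  simp [fl, syl_one]

/-- an alternating word which is an infix is not too long -/
theorem alt_le {M : Fin 3 → Fin 3 → ℕ} {u : List (Fin 3)}
    (hu : ∀ i j, i ≠ j → ¬ alt i j (M i j + 1) <:+: u) {i j : Fin 3} (hij : i ≠ j) {m : ℕ}
    (h : alt i j m <:+: u) : m ≤ M i j := by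
  by_contra hcon
  push Not at hcon
  obtain ⟨d, rfl⟩ : ∃ d, m = M i j + 1 + d := ⟨m - (M i j + 1), by omega⟩
  refine hu i j hij (List.IsInfix.trans ?_ h)
  rw [alt_add i j (M i j + 1) d]
  exact ⟨[], _, by rw [List.nil_append]⟩

theorem mm2a (p q r : ℕ) (a : Bool) : mm p q r 2 (ltr a) = mqr q r a := by
  cases a <;> rfl

theorem mma2 (p q r : ℕ) (a : Bool) : mm p q r (ltr a) 2 = mqr q r a := by
  cases a <;> rfl

/-- information about the first block -/
def Lead (p : ℕ) (S : List (Bool × ℕ)) : List SBl → Prop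
  | [] => S = []
  | b :: bs => (∃ s S1, S = s :: S1 ∧ nr p s = (b.a, b.k)) ∧
      (b.k = 1 → ∃ S2, S = List.replicate b.n (b.a, 1) ++ S2 ∧
        ∀ b' bs', bs = b' :: bs' → b'.k < p → ∃ S3, S2 = (b'.a, b'.k) :: S3)

theorem group (p q r : ℕ) (hp : 3 ≤ p) (hq : 3 ≤ q) (hr : 3 ≤ r) (u : List (Fin 3))
    (hu : ∀ i j, i ≠ j → ¬ alt i j (mm p q r i j + 1) <:+: u) :
    ∀ S : List (Bool × ℕ), (∀ s ∈ S, 1 ≤ s.2 ∧ s.2 ≤ p) → (2 :: fl S) <:+: u →
      (∀ b ∈ grp (S.map (nr p)), b.Ok p q r) ∧
      List.IsChain (SBl.Nx p q r) (grp (S.map (nr p))) ∧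
      Lead p S (grp (S.map (nr p))) := by
  intro S
  induction S with
  | nil =>
    intro _ _
    exact ⟨by simp [grp_nil], by simp [grp_nil], rfl⟩
  | cons s S ih =>
    intro hS hw
    obtain ⟨a0, k0⟩ := s
    have hs := hS (a0, k0) (by simp)
    simp only at hs
    -- the rest
    have hw' : (2 :: fl S) <:+: u := by
      refine List.IsInfix.trans ?_ hw
      rw [fl_cons, syl_eq]
      refine ⟨2 :: alt (ltr a0) (ltr !a0) k0, [], ?_⟩
      simp
    obtain ⟨hOk, hCh, hL⟩ := ih (fun s hs => hS s (by simp [hs])) hw'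
    have hle : ∀ {i j : Fin 3}, i ≠ j → ∀ {m : ℕ}, alt i j m <:+: u → m ≤ mm p q r i j := by
      intro i j hij m h
      exact alt_le hu hij h
    rw [List.map_cons]
    set S' := S.map (nr p) with hS'
    set s' := nr p (a0, k0) with hs'
    have hs2 : s'.2 = k0 := nr_snd p _
    have hka : s'.1 = true → s'.2 < p := nr_fst p (a0, k0) hs.2
    have hlt : k0 < p → s' = (a0, k0) := fun h => nr_lt p (a0, k0) (by rw [nr_snd]; exact h)
    -- the single block is admissible
    have hone : (⟨s'.1, s'.2, 1⟩ : SBl).Ok p q r := by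
      refine ⟨by rw [hs2]; exact hs.1, by rw [hs2]; exact hs.2, hka, le_rfl, fun _ => rfl, ?_⟩
      intro _
      show 2 * 1 + 1 ≤ mqr q r s'.1
      unfold mqr
      split <;> omega
    rcases hg : grp S' with _ | ⟨b, bs⟩
    · -- last syllable
      rw [grp_cons_nil s' S' hg]
      rw [hg] at hL
      have hSn : S = [] := hL
      refine ⟨?_, List.isChain_singleton _, ⟨⟨(a0, k0), S, rfl, rfl⟩, ?_⟩⟩
      · intro b hb
        rw [List.mem_singleton] at hb
        rw [hb]
        exact hone
      · intro hk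
        have hk' : k0 = 1 := by rw [← hs2]; exact hk
        have h1 := hlt (by omega)
        refine ⟨S, ?_, ?_⟩
        · rw [h1, hk']
          rfl
        · intro b' bs' h
          simp at h
    · rw [hg] at hOk hCh hL
      obtain ⟨⟨s1, S1, hSS, hn1⟩, hL1⟩ := hL
      by_cases hc : b.a = s'.1 ∧ b.k = s'.2 ∧ s'.2 % 2 = 1
      · -- merged
        rw [grp_cons_pos s' S' b bs hg hc]
        obtain ⟨ca, ck, co⟩ := hc
        have hb := hOk b (by simp)
        -- structure when `k = 1`
        have hst : s'.2 = 1 → s' = (a0, 1) ∧ k0 = 1 ∧ b.a = a0 ∧ ∃ S2,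
            S = List.replicate b.n (a0, 1) ++ S2 ∧
            ∀ b' bs', bs = b' :: bs' → b'.k < p → ∃ S3, S2 = (b'.a, b'.k) :: S3 := by
          intro hk
          have hk' : k0 = 1 := by rw [← hs2]; exact hk
          have h1 := hlt (by omega)
          have h2 : b.a = a0 := by rw [ca, h1]
          obtain ⟨S2, e1, e2⟩ := hL1 (by rw [ck]; exact hk)
          rw [h2] at e1
          exact ⟨by rw [h1, hk'], hk', h2, S2, e1, e2⟩
        refine ⟨?_, ?_, ?_⟩
        · intro c hcm
          rcases List.mem_cons.mp hcm with rfl | hcm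
          · refine ⟨by rw [hs2]; exact hs.1, by rw [hs2]; exact hs.2, hka, Nat.succ_pos _, ?_, ?_⟩
            · intro h
              have h : s'.2 % 2 = 0 := h
              omega
            · intro hk
              obtain ⟨e0, e1, e2, S2, e3, e4⟩ := hst hk
              show 2 * (b.n + 1) + 1 ≤ mqr q r s'.1
              rw [e0]
              show 2 * (b.n + 1) + 1 ≤ mqr q r a0
              rw [← mm2a p q r a0]
              refine hle (ltr_ne2 a0).symm (List.IsInfix.trans ?_ hw)
              rw [alt_rep1, fl_cons, e3, fl_append, fl_rep, e1, syl_one]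
              refine ⟨[], fl S2, ?_⟩
              simp [List.replicate_succ]
          · exact hOk c (by simp [hcm])
        · rcases bs with _ | ⟨b', bs'⟩
          · exact List.isChain_singleton _
          · rw [List.isChain_cons_cons] at hCh ⊢
            refine ⟨⟨?_, ?_, ?_⟩, hCh.2⟩
            · have := hCh.1.ne
              rw [ca, ck] at this
              exact this
            · have := hCh.1.pre
              rw [ca, ck] at this
              exact this
            · intro hk hk' hab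
              obtain ⟨e0, e1, e2, S2, e3, e4⟩ := hst hk
              obtain ⟨S3, e5⟩ := e4 b' bs' rfl hk'
              show 2 * (b.n + 1) + 2 ≤ mqr q r s'.1
              have hab : b'.a = s'.1 := hab
              rw [e0] at hab ⊢
              have hab : b'.a = a0 := hab
              show 2 * (b.n + 1) + 2 ≤ mqr q r a0
              rw [← mm2a p q r a0]
              refine hle (ltr_ne2 a0).symm (List.IsInfix.trans ?_ hw)
              have hk1 : 1 ≤ b'.k := (hOk b' (by simp)).k1
              obtain ⟨v, hv⟩ := syl_first b'.a b'.k hk1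
              rw [alt_rep2, fl_cons, e3, fl_append, fl_rep, e1, syl_one, e5, fl_cons]
              show _ <:+: 2 :: ([ltr a0, 2] ++ ((List.replicate b.n [ltr a0, 2]).flatten ++
                (syl b'.a b'.k ++ fl S3)))
              rw [hv, hab]
              refine ⟨[], v ++ fl S3, ?_⟩
              simp [List.replicate_succ]
        · refine ⟨⟨(a0, k0), S, rfl, rfl⟩, ?_⟩
          intro hk
          obtain ⟨e0, e1, e2, S2, e3, e4⟩ := hst hk
          refine ⟨S2, ?_, e4⟩
          show (a0, k0) :: S = List.replicate (b.n + 1) (s'.1, 1) ++ S2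
          rw [e0, e3, e1]
          simp [List.replicate_succ]
      · -- new block
        rw [grp_cons_neg s' S' b bs hg hc]
        have hnext : b.k < p → s1 = (b.a, b.k) := by
          intro h
          rw [← hn1]
          refine (nr_lt p s1 ?_).symm
          rw [hn1]
          exact h
        have hbk : 1 ≤ b.k := (hOk b (by simp)).k1
        refine ⟨?_, ?_, ?_⟩
        · intro c hcm
          rcases List.mem_cons.mp hcm with rfl | hcm
          · exact hone
          · exact hOk c hcm
        · rw [List.isChain_cons_cons]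
          refine ⟨⟨?_, ?_, ?_⟩, hCh⟩
          · rintro ⟨h1, h2, h3⟩
            exact hc ⟨h1.symm, h2.symm, h3⟩
          · intro hk hk' hl
            have hk' : s'.2 < p := hk'
            have h1 := hlt (by rw [← hs2]; exact hk')
            have hl : lsE s'.1 s'.2 = b.a := hl
            rw [h1] at hl
            have hl : lsE a0 k0 = b.a := hl
            obtain ⟨S2, e1, e2⟩ := hL1 hk
            rw [← mma2 p q r b.a]
            refine hle (ltr_ne2 b.a) (List.IsInfix.trans ?_ hw)
            rw [alt_rep3, fl_cons, e1, fl_append, fl_rep]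
            show _ <:+: 2 :: (syl a0 k0 ++ _)
            rw [syl_last a0 k0 hs.1, hl]
            refine ⟨2 :: alt (ltr a0) (ltr !a0) (k0 - 1), fl S2, ?_⟩
            simp
          · intro hk hk' hab
            have hk : s'.2 = 1 := hk
            have hk0 : k0 = 1 := by rw [← hs2]; exact hk
            have h1 := hlt (by omega)
            have hab : b.a = s'.1 := hab
            rw [h1] at hab
            have hab : b.a = a0 := hab
            have h2 := hnext hk'
            show 2 * 1 + 2 ≤ mqr q r s'.1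
            rw [h1]
            show 2 * 1 + 2 ≤ mqr q r a0
            rw [← mm2a p q r a0]
            refine hle (ltr_ne2 a0).symm (List.IsInfix.trans ?_ hw)
            obtain ⟨v, hv⟩ := syl_first b.a b.k hbk
            rw [fl_cons, hSS, fl_cons, h2]
            show _ <:+: 2 :: (syl a0 k0 ++ (syl b.a b.k ++ fl S1))
            rw [hk0, syl_one, hv, hab]
            refine ⟨[], v ++ fl S1, ?_⟩
            simp [alt]
        · refine ⟨⟨(a0, k0), S, rfl, rfl⟩, ?_⟩
          intro hk
          have hk : s'.2 = 1 := hk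
          have hk0 : k0 = 1 := by rw [← hs2]; exact hk
          have h1 := hlt (by omega)
          refine ⟨S, ?_, ?_⟩
          · show (a0, k0) :: S = List.replicate 1 (s'.1, 1) ++ S
            rw [h1, hk0]
            rfl
          · intro b' bs' h hk'
            obtain ⟨rfl, rfl⟩ := List.cons.inj h
            exact ⟨S1, by rw [hSS, hnext hk']⟩

/-! ### cutting -/

/-- a word in the letters `0, 1` without repetitions is alternating -/
theorem alt_of (d : List (Fin 3)) (h2 : ∀ x ∈ d, x ≠ 2) (hne : ∀ a, ¬ [a, a] <:+: d) :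
    ∃ a : Bool, d = alt (ltr a) (ltr !a) d.length := by
  induction d with
  | nil => exact ⟨false, rfl⟩
  | cons x d ih =>
    obtain ⟨a, ha⟩ := ih (fun y hy => h2 y (by simp [hy]))
      (fun y hy => hne y (hy.trans ⟨[x], [], by simp⟩))
    have hx : ∃ b : Bool, x = ltr b := by
      have := h2 x (by simp)
      fin_cases x
      · exact ⟨false, rfl⟩
      · exact ⟨true, rfl⟩
      · simp at this
    obtain ⟨b, rfl⟩ := hx
    refine ⟨b, ?_⟩
    rcases d with _ | ⟨y, d⟩
    · rfl
    · have hy : y = ltr a := by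
        have h := ha
        rw [List.length_cons, alt_succ] at h
        exact (List.cons.inj h).1
      have hab : a = !b := by
        by_contra hcon
        have : a = b := by
          revert hcon
          cases a <;> cases b <;> simp
        refine hne (ltr b) ⟨[], d, ?_⟩
        rw [hy, this]
        rfl
      rw [List.length_cons, alt_succ, ← hab]
      have : ltr b = ltr !a := by rw [hab]; simp
      rw [this, ← ha]

theorem takeDrop (u : List (Fin 3)) : ∃ d, (∀ x ∈ d, x ≠ 2) ∧ (u = d ∨ ∃ v, u = d ++ 2 :: v) := by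
  induction u with
  | nil => exact ⟨[], by simp, Or.inl rfl⟩
  | cons x u ih =>
    by_cases hx : x = 2
    · exact ⟨[], by simp, Or.inr ⟨u, by rw [hx]; rfl⟩⟩
    · obtain ⟨d, h1, h2⟩ := ih
      refine ⟨x :: d, ?_, ?_⟩
      · intro y hy
        rcases List.mem_cons.mp hy with rfl | hy
        · exact hx
        · exact h1 y hy
      · rcases h2 with h | ⟨v, h⟩
        · exact Or.inl (by rw [h])
        · exact Or.inr ⟨v, by rw [h]; rfl⟩

theorem mm01 (p q r : ℕ) (a : Bool) : mm p q r (ltr a) (ltr !a) = p := by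
  cases a <;> rfl

theorem piece (p q r : ℕ) (u d : List (Fin 3)) (hne : ∀ a, ¬ [a, a] <:+: u)
    (hu : ∀ i j, i ≠ j → ¬ alt i j (mm p q r i j + 1) <:+: u) (h2 : ∀ x ∈ d, x ≠ 2)
    (hd : d <:+: u) : ∃ a : Bool, d = alt (ltr a) (ltr !a) d.length ∧ d.length ≤ p := by
  obtain ⟨a, ha⟩ := alt_of d h2 (fun y hy => hne y (hy.trans hd))
  refine ⟨a, ha, ?_⟩
  rw [← mm01 p q r a]
  refine alt_le hu (ltr_ne a) ?_
  rw [← ha]
  exact hd

theorem cutS (p q r : ℕ) (u : List (Fin 3)) (hne : ∀ a, ¬ [a, a] <:+: u)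
    (hu : ∀ i j, i ≠ j → ¬ alt i j (mm p q r i j + 1) <:+: u) :
    ∀ (L : ℕ) (v : List (Fin 3)), v.length ≤ L → (2 :: v) <:+: u →
      ∃ (S : List (Bool × ℕ)) (t : List (Fin 3)), v = fl S ++ t ∧ t.length ≤ p ∧
        ∀ s ∈ S, 1 ≤ s.2 ∧ s.2 ≤ p := by
  intro L
  induction L with
  | zero =>
    intro v hv _
    have : v = [] := List.eq_nil_of_length_eq_zero (by omega)
    exact ⟨[], [], by rw [this]; rfl, by simp, by simp⟩
  | succ L ih =>
    intro v hv hi
    obtain ⟨d, h2, h⟩ := takeDrop v
    rcases h with h | ⟨v', h⟩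
    · obtain ⟨a, _, hl⟩ := piece p q r u d hne hu h2 (by
        rw [← h]
        exact List.IsInfix.trans ⟨[2], [], by simp⟩ hi)
      exact ⟨[], d, by rw [h]; rfl, hl, by simp⟩
    · obtain ⟨a, ha, hl⟩ := piece p q r u d hne hu h2 (by
        refine List.IsInfix.trans ⟨[2], 2 :: v', ?_⟩ hi
        rw [h]
        simp)
      have hd0 : 1 ≤ d.length := by
        rcases d with _ | ⟨x, d⟩
        · exfalso
          refine hne 2 (List.IsInfix.trans ⟨[], v', ?_⟩ hi)
          rw [h]
          rfl
        · simp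
      obtain ⟨S, t, e1, e2, e3⟩ := ih v' (by
        have : v.length = d.length + (v'.length + 1) := by rw [h]; simp
        omega) (List.IsInfix.trans ⟨2 :: d, [], by rw [h]; simp⟩ hi)
      refine ⟨(a, d.length) :: S, t, ?_, e2, ?_⟩
      · rw [fl_cons]
        show v = (syl a d.length ++ fl S) ++ t
        rw [syl_eq, ← ha, h, e1]
        simp
      · intro s hs
        rcases List.mem_cons.mp hs with rfl | hs
        · exact ⟨hd0, hl⟩
        · exact e3 s hs

/-! ### normalisation -/

theorem eqv_nr (p q r : ℕ) (hp : 3 ≤ p) (hq : 3 ≤ q) (hr : 3 ≤ r) (s : Bool × ℕ) :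
    Eqv p q r (syl s.1 s.2) (syl (nr p s).1 (nr p s).2) := by
  have hE := cong21 p q r hp hq hr
  by_cases h : s.2 = p
  · have e : nr p s = (false, s.2) := by
      unfold nr
      rw [if_pos h]
    rw [e, syl_eq, syl_eq]
    show Eqv p q r (alt (ltr s.1) (ltr !s.1) s.2 ++ [2]) (alt 0 1 s.2 ++ [2])
    cases h1 : s.1
    · exact hE.refl _
    · have h2 := hE.app [] _ _ [2] (hE.brd 1 0 (by decide))
      have e2 : mm p q r 1 0 = p := rfl
      rw [e2] at h2
      rw [h]
      rw [List.nil_append, List.nil_append] at h2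
      exact h2
  · have e : nr p s = s := by
      unfold nr
      rw [if_neg h]
    rw [e]
    exact hE.refl _

theorem eqv_fl (p q r : ℕ) (hp : 3 ≤ p) (hq : 3 ≤ q) (hr : 3 ≤ r) (S : List (Bool × ℕ)) :
    Eqv p q r (fl S) (fl (S.map (nr p))) := by
  have hE := cong21 p q r hp hq hr
  induction S with
  | nil => exact hE.refl _
  | cons s S ih =>
    rw [List.map_cons, fl_cons, fl_cons]
    have h1 := hE.app [] _ _ (fl S) (eqv_nr p q r hp hq hr s)
    have h2 := hE.app (syl (nr p s).1 (nr p s).2) _ _ [] ih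
    rw [List.nil_append, List.nil_append] at h1
    rw [List.append_nil, List.append_nil] at h2
    exact hE.trans _ _ _ h1 h2

/-- **Row RED.** -/
theorem st_RED : ST_RED := by
  intro p q r hp hq hr w
  have hE := cong21 p q r hp hq hr
  have hM : ∀ i j : Fin 3, i ≠ j → 2 ≤ mm p q r i j := by
    intro i j hij
    fin_cases i <;> fin_cases j <;> simp [mm] at hij ⊢ <;> omega
  have hs : ∀ i j : Fin 3, mm p q r i j = mm p q r j i := by
    intro i j
    fin_cases i <;> fin_cases j <;> simp [mm]
  obtain ⟨u, hwu, hg⟩ := exists_good (mm p q r) (Eqv p q r) hE hM hs w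
  obtain ⟨d, h2, h⟩ := takeDrop u
  rcases h with h | ⟨v, h⟩
  · obtain ⟨a, _, hl⟩ := piece p q r u d hg.ne hg.run h2 (by rw [h])
    refine ⟨d, [], [], by omega, by simp, by simp, by simp, ?_⟩
    rw [h] at hwu
    simpa using hwu
  · obtain ⟨a, _, hl⟩ := piece p q r u d hg.ne hg.run h2 ⟨[], 2 :: v, by rw [h]; simp⟩
    have hi : (2 :: v) <:+: u := ⟨d, [], by rw [h]; simp⟩
    obtain ⟨S, t, e1, e2, e3⟩ := cutS p q r u hg.ne hg.run v.length v le_rfl hi
    obtain ⟨g1, g2, _⟩ := group p q r hp hq hr u hg.run S e3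
      (List.IsInfix.trans ⟨[], t, by rw [e1]; simp⟩ hi)
    refine ⟨d ++ [2], t, grp (S.map (nr p)), ?_, by omega, g1, g2, ?_⟩
    · rw [List.length_append]
      simp
      exact hl
    · rw [grp_wd]
      have h3 : u = (d ++ [2]) ++ fl S ++ t := by
        rw [h, e1]
        simp
      rw [h3] at hwu
      exact hE.trans _ _ _ hwu (hE.app (d ++ [2]) _ _ t (eqv_fl p q r hp hq hr S))

end Pool.Agent.Helper6.MONO.W2
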