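import Pool.Agent.Helper12.CW.SR1
import Pool.Agent.Helper93.CW.SRed

/-!
Plan W (MP_c75db0), star frame: the cover of all words by paths of blocks with types.
-/

set_option autoImplicit false

namespace Pool.Agent.Helper6.MONO.W2

/-- type of the first block -/
def hdS : List SBl → Sy
  | [] => (false, 2)
  | b :: _ => b.sy

theorem sy02 (p : ℕ) (hp : 3 ≤ p) : SyOk p (false, 2) := by
  refine ⟨by norm_num, ?_, by simp⟩
  show 2 ≤ p
  omega

theorem hd_ok (p q r : ℕ) (hp : 3 ≤ p) (bs : List SBl) (h : ∀ b ∈ bs, b.Ok p q r) :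
    SyOk p (hdS bs) := by
  rcases bs with _ | ⟨b, bs⟩
  · exact sy02 p hp
  · have := h b (by simp)
    exact ⟨this.k1, this.kp, this.ka⟩

theorem exists_path (p q r : ℕ) (hp : 3 ≤ p) : ∀ (bs : List SBl) (pv : Sy), SyOk p pv →
    (∀ b ∈ bs, b.Ok p q r) → List.IsChain (SBl.Nx p q r) bs → SyNe pv (hdS bs) →
    ∃ (ts : List (TB p q r)) (s' : Sy × Sy), BPath TB.src TB.tgt (pv, hdS bs) ts s' ∧
      ts.map (fun b => b.cur) = bs := by
  intro bs
  induction bs with
  | nil =>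
    intro pv _ _ _ _
    exact ⟨[], _, BPath.nil _, rfl⟩
  | cons b bs ih =>
    intro pv h1 h2 h3 h4
    have hb := h2 b (by simp)
    have hbs : ∀ c ∈ bs, c.Ok p q r := fun c hc => h2 c (by simp [hc])
    have hne : SyNe b.sy (hdS bs) := by
      rcases bs with _ | ⟨c, bs⟩
      · rintro ⟨e1, e2⟩
        have e3 : b.sy = (false, 2) := e1
        rw [e3] at e2
        norm_num at e2
      · rw [List.isChain_cons_cons] at h3
        rintro ⟨e1, e2⟩
        refine h3.1.ne ⟨?_, ?_, e2⟩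
        · exact congrArg Prod.fst e1
        · exact congrArg Prod.snd e1
    have hc : List.IsChain (SBl.Nx p q r) bs := by
      rcases bs with _ | ⟨c, bs⟩
      · exact List.isChain_nil
      · rw [List.isChain_cons_cons] at h3
        exact h3.2
    obtain ⟨ts, s', e1, e2⟩ := ih b.sy ⟨hb.k1, hb.kp, hb.ka⟩ hbs hc hne
    refine ⟨⟨pv, b, hdS bs, h1, hb, hd_ok p q r hp bs hbs, h4, hne⟩ :: ts, s', ?_, ?_⟩
    · exact BPath.cons (src := TB.src) (tgt := TB.tgt)
        (⟨pv, b, hdS bs, h1, hb, hd_ok p q r hp bs hbs, h4, hne⟩ : TB p q r) e1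
    · rw [List.map_cons, e2]

/-- **Row COV.** -/
theorem st_COV : ST_COV := by
  intro p q r hp hq hr w
  obtain ⟨h, t, bs, h1, h2, h3, h4, h5⟩ := st_RED p q r hp hq hr w
  have hne : SyNe (false, 2) (hdS bs) := by
    rintro ⟨e1, e2⟩
    norm_num at e2
  obtain ⟨ts, s', e1, e2⟩ := exists_path p q r hp bs (false, 2) (sy02 p hp) h3 h4 hne
  refine ⟨h, t, ((false, 2), hdS bs), ts, s', h1, h2, ⟨rfl, hd_ok p q r hp bs h3⟩, e1, ?_⟩
  have : ts.map (fun b => b.cur.wd) = bs.map SBl.wd := by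
    rw [← e2, List.map_map]
    rfl
  rw [this]
  exact h5

/-- **Row TFIN.** -/
theorem st_TFIN : ST_TFIN := by
  intro p
  have : Function.Injective (fun s : {s // TSt p s} =>
      ((s.1.2.1, (⟨s.1.2.2, Nat.lt_succ_of_le s.2.2.2.1⟩ : Fin (p + 1))) : Bool × Fin (p + 1))) := by
    rintro ⟨⟨a, b, c⟩, h⟩ ⟨⟨a', b', c'⟩, h'⟩ e
    simp only [Prod.mk.injEq, Fin.mk.injEq] at e
    obtain ⟨rfl, rfl⟩ := e
    have h1 : a = (false, 2) := h.1
    have h2 : a' = (false, 2) := h'.1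
    subst h1 h2
    rfl
  exact Finite.of_injective _ this

end Pool.Agent.Helper6.MONO.W2
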