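import Pool.Agent.Helper12.CW.SR2
import Pool.Agent.Helper26.CW.Runs

/-!
Plan W (MP_c75db0), star frame: matrices of the blocks and their derivatives.
-/

set_option autoImplicit false
noncomputable section
namespace Pool.Agent.Helper6.MONO.W2

open Matrix Filter Topology

theorem nsq (z : ℂ) : z * star z = ((‖z‖ ^ 2 : ℝ) : ℂ) := by
  have h2 : star z = (starRingEnd ℂ) z := rfl
  rw [h2, Complex.mul_conj, Complex.normSq_eq_norm_sq]

theorem re2 (z : ℂ) : z + star z = ((2 * z.re : ℝ) : ℂ) := by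
  apply Complex.ext
  · simp
    ring
  · simp

/-! ### the letter `2` -/

theorem rfJ_vv (A B : ℂ) :
    rfJ (‖A‖ ^ 2 + ‖B‖ ^ 2 - 2) ![A, B, 1] = sI2 A B := by
  have h : A * star A + B * star B - 2 = ((‖A‖ ^ 2 + ‖B‖ ^ 2 - 2 : ℝ) : ℂ) := by
    rw [nsq, nsq]
    push_cast
    ring
  unfold rfJ sI2
  rw [h]
  ext i j
  fin_cases i <;> fin_cases j <;> simp <;> ring

theorem rfd_vv (A B A' B' : ℂ) :
    rfd (‖A‖ ^ 2 + ‖B‖ ^ 2 - 2) (2 * (A' * star A + B' * star B).re) ![A, B, 1] ![A', B', 0] =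
      sI2d A B A' B' := by
  have h : ((‖A‖ ^ 2 + ‖B‖ ^ 2 - 2 : ℝ) : ℂ) = A * star A + B * star B - 2 := by
    rw [nsq, nsq]
    push_cast
    ring
  have h' : ((2 * (A' * star A + B' * star B).re : ℝ) : ℂ) =
      A' * star A + A * star A' + B' * star B + B * star B' := by
    rw [← re2]
    simp only [star_add, star_mul', star_star]
    ring
  unfold rfd sI2d
  rw [h, h']
  ext i j
  fin_cases i <;> fin_cases j <;> simp <;> ring

theorem wd_n1 (b : SBl) (h : b.n = 1) : b.wd = syl b.a b.k := by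
  unfold SBl.wd
  rw [h]
  simp

/-- **Row BLK1.** -/
theorem st_BLK1 : ST_BLK1 := by
  intro p q r hp hq hr b x hn
  obtain ⟨h1, h2⟩ := st_SYL (phi p) (Kp q) (Kp r) x b.a b.k
  unfold bN bNd
  rw [wd_n1 b hn, h1, h2]
  constructor
  · congr 1
    exact (rfJ_vv _ _).symm
  · congr 1
    exact (rfd_vv _ _ _ _).symm

/-! ### derivatives -/

theorem rfJ_deriv {t : ℝ → ℝ} {V : ℝ → V3} {t' : ℝ} {V' : V3} {x : ℝ} (ht : HasDerivAt t t' x)
    (hV : ∀ i, HasDerivAt (fun x => V x i) (V' i) x) (i j : Fin 3) :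
    HasDerivAt (fun x => rfJ (t x) (V x) i j) (rfd (t x) t' (V x) V' i j) x := by
  have hs : ∀ i, HasDerivAt (fun x => star (V x i)) (star (V' i)) x := fun i => star_deriv (hV i)
  have ht' : HasDerivAt (fun x => ((t x : ℝ) : ℂ)) (t' : ℂ) x := ht.ofReal_comp
  rcases fin3 j with rfl | rfl | rfl
  · refine (((hV i).mul (hs 0)).const_sub ((1 : Mt) i 0)).congr_deriv ?_
    simp [rfd]
  · refine (((hV i).mul (hs 1)).const_sub ((1 : Mt) i 1)).congr_deriv ?_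
    simp [rfd]
  · refine (((hV i).mul ((ht'.mul (hs 2)).neg)).const_sub ((1 : Mt) i 2)).congr_deriv ?_
    simp [rfd]

theorem norm_deriv {c : ℝ → ℂ} {c' : ℂ} {x : ℝ} (hc : HasDerivAt c c' x) (h0 : c x ≠ 0) :
    HasDerivAt (fun x => ‖c x‖) ((c' * star (c x)).re / ‖c x‖) x := by
  have hpos : 0 < ‖c x‖ := norm_pos_iff.mpr h0
  have h1 := hc.norm_sq
  have h2 := h1.sqrt (by positivity)
  have e : (fun x => ‖c x‖) = fun x => Real.sqrt (‖c x‖ ^ 2) := by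
    funext y
    rw [Real.sqrt_sq (norm_nonneg _)]
  rw [e]
  refine h2.congr_deriv ?_
  simp only [Real.sqrt_sq (norm_nonneg _)]
  have e2 : inner ℝ (c x) c' = (c' * star (c x)).re := by
    rw [Complex.inner]
    rfl
  rw [e2]
  field_simp

theorem Us_deriv (n : ℕ) (κ : ℝ) : HasDerivAt (fun κ => Us κ n) (Ud κ n) κ ∧
    HasDerivAt (fun κ => Us κ (n + 1)) (Ud κ (n + 1)) κ := by
  induction n with
  | zero => exact ⟨hasDerivAt_const κ _, hasDerivAt_const κ _⟩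
  | succ n ih =>
    refine ⟨ih.2, ?_⟩
    have h := ((hasDerivAt_id κ).mul ih.2).sub ih.1
    refine h.congr_deriv ?_
    simp [Ud]

theorem cj_deriv (φ k1 k2 : ℝ) (a : Bool) (k : ℕ) {x : ℝ} (h1 : -2 < x) (h2 : x < 2) :
    HasDerivAt (fun x => cj φ k1 k2 a k x) (cjd φ k2 a k x) x :=
  (sA_deriv φ k1 k2 h1 h2).add ((sB_deriv φ k1 k2 h1 h2).mul_const _)

theorem tt_deriv (φ k1 k2 : ℝ) {x : ℝ} (h1 : -2 < x) (h2 : x < 2) :
    HasDerivAt (fun x => tt φ k1 k2 x) (ttd φ k1 k2 x) x := by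
  have hA := (sA_deriv φ k1 k2 h1 h2).norm_sq
  have hB := (sB_deriv φ k1 k2 h1 h2).norm_sq
  refine ((hA.add hB).sub_const 2).congr_deriv ?_
  unfold ttd
  have e2 : ∀ c c' : ℂ, inner ℝ c c' = (c' * star c).re := by
    intro c c'
    rw [Complex.inner]
    rfl
  rw [e2, e2, Complex.add_re]
  ring

theorem vv_deriv (φ k1 k2 : ℝ) {x : ℝ} (h1 : -2 < x) (h2 : x < 2) (i : Fin 3) :
    HasDerivAt (fun x => vv φ k1 k2 x i) (vvd φ k2 x i) x := by
  rcases fin3 i with rfl | rfl | rfl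
  · exact sA_deriv φ k1 k2 h1 h2
  · exact sB_deriv φ k1 k2 h1 h2
  · exact hasDerivAt_const x _

theorem su_deriv (φ k1 k2 : ℝ) (a : Bool) (k : ℕ) {x : ℝ} (h1 : -2 < x) (h2 : x < 2)
    (h0 : cj φ k1 k2 a k x ≠ 0) (i : Fin 3) :
    HasDerivAt (fun x => su φ k1 k2 a k x i) (sud φ k1 k2 a k x i) x := by
  have hc := cj_deriv φ k1 k2 a k h1 h2
  have hn := (norm_deriv hc h0).ofReal_comp
  have hpos : 0 < ‖cj φ k1 k2 a k x‖ := norm_pos_iff.mpr h0
  have hne : ((‖cj φ k1 k2 a k x‖ : ℝ) : ℂ) ≠ 0 := by exact_mod_cast hpos.ne'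
  have hq := (hc.div hn hne).mul_const ((![1, ev φ a k, 0] : V3) i)
  refine hq.congr_deriv ?_
  unfold sud kjd
  rw [Pi.smul_apply, smul_eq_mul]
  congr 1
  field_simp

theorem Vn_deriv (φ k1 k2 : ℝ) (a : Bool) (k n : ℕ) {x : ℝ} (h1 : -2 < x) (h2 : x < 2)
    (h0 : cj φ k1 k2 a k x ≠ 0) (i : Fin 3) :
    HasDerivAt (fun x => Vn φ k1 k2 a k n x i) (Vnd φ k1 k2 a k n x i) x := by
  have hc := cj_deriv φ k1 k2 a k h1 h2
  have hn := norm_deriv hc h0
  have hU : ∀ m, HasDerivAt (fun x => ((Us ‖cj φ k1 k2 a k x‖ m : ℝ) : ℂ))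
      ((Ud ‖cj φ k1 k2 a k x‖ m * kjd φ k1 k2 a k x : ℝ) : ℂ) x := by
    intro m
    have h := HasDerivAt.comp x (Us_deriv m ‖cj φ k1 k2 a k x‖).1 hn
    exact h.ofReal_comp
  have h3 := ((hU n).mul (su_deriv φ k1 k2 a k h1 h2 h0 i)).sub
    ((hU (n - 1)).mul (vv_deriv φ k1 k2 h1 h2 i))
  refine h3.congr_deriv ?_
  simp only [Vnd, Pi.sub_apply, Pi.add_apply, Pi.smul_apply, smul_eq_mul]

/-! ### runs -/

theorem ev_norm (φ : ℝ) (a : Bool) (k : ℕ) : ev φ a k * star (ev φ a k) = 1 := by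
  rw [nsq]
  have : ‖ev φ a k‖ = 1 := by
    unfold ev
    split
    · rw [norm_pow, norm_star, ep_norm, one_pow]
    · rw [norm_pow, ep_norm, one_pow]
  rw [this]
  norm_num

theorem sDm_rf (φ : ℝ) (a : Bool) (k : ℕ) (hk : k % 2 = 1) (t : ℝ) :
    sDm φ a k = rfJ t ![1, ev φ a k, 0] := by
  have hk' : ¬ k % 2 = 0 := by omega
  have he := ev_norm φ a k
  have e : sDm φ a k = !![0, -star (ev φ a k), 0; -ev φ a k, 0, 0; 0, 0, 1] := by
    unfold sDm ev
    cases a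
    · simp [hk']
    · simp [hk']
  rw [e]
  unfold rfJ
  ext i j
  fin_cases i <;> fin_cases j <;> simp
  have he' : ev φ a k * (starRingEnd ℂ) (ev φ a k) = 1 := he
  rw [he']
  ring

theorem sW_rep (φ k1 k2 : ℝ) (z : ℂ) (u : List (Fin 3)) (n : ℕ) :
    sW φ k1 k2 z (List.replicate n u).flatten = (sW φ k1 k2 z u) ^ n := by
  induction n with
  | zero => simp [sW]
  | succ n ih => rw [List.replicate_succ, List.flatten_cons, sW_append, ih, pow_succ]

theorem bN_run (p q r : ℕ) (b : SBl) (x : ℝ) (hk : b.k % 2 = 1) (hn : 1 ≤ b.n)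
    (h0 : cj (phi p) (Kp q) (Kp r) b.a b.k x ≠ 0) :
    bN p q r b x = rfJ (tt (phi p) (Kp q) (Kp r) x) (vv (phi p) (Kp q) (Kp r) x) *
      rfJ (tt (phi p) (Kp q) (Kp r) x) (Vn (phi p) (Kp q) (Kp r) b.a b.k b.n x) := by
  set φ := phi p
  set k1 := Kp q
  set k2 := Kp r
  set t := tt φ k1 k2 x with ht
  set v := vv φ k1 k2 x with hv
  set c := cj φ k1 k2 b.a b.k x with hc
  have hcp : 0 < ‖c‖ := norm_pos_iff.mpr h0
  have hcn : ((‖c‖ : ℝ) : ℂ) ≠ 0 := by exact_mod_cast hcp.ne'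
  set f : ℂ := c / (‖c‖ : ℂ) with hf
  have hf1 : ‖f‖ = 1 := by
    rw [hf, norm_div, Complex.norm_real, norm_norm, div_self hcp.ne']
  have he := ev_norm φ b.a b.k
  -- the products
  have hfc : f * star c = (‖c‖ : ℂ) := by
    rw [hf, div_mul_eq_mul_div, nsq]
    push_cast
    field_simp
  have hfc' : c * star f = (‖c‖ : ℂ) := by
    have := congrArg star hfc
    rw [star_mul', star_star] at this
    rw [mul_comm, this]
    exact Complex.conj_ofReal _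
  have hff : f * star f = 1 := by
    rw [nsq, hf1]
    norm_num
  have hss : brJ t (su φ k1 k2 b.a b.k x) (su φ k1 k2 b.a b.k x) = 2 := by
    show f * 1 * star (f * 1) + f * ev φ b.a b.k * star (f * ev φ b.a b.k) -
      t * (f * 0 * star (f * 0)) = 2
    simp only [star_mul', star_one, star_zero]
    linear_combination (1 + ev φ b.a b.k * star (ev φ b.a b.k)) * hff + he
  have hvv : brJ t v v = 2 := by
    show sA φ k1 k2 (zx x) * star (sA φ k1 k2 (zx x)) + sB φ k1 k2 (zx x) *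
      star (sB φ k1 k2 (zx x)) - t * ((1 : ℂ) * star 1) = 2
    rw [nsq, nsq, ht, tt, star_one]
    push_cast
    ring
  have hvs : brJ t v (su φ k1 k2 b.a b.k x) = (‖c‖ : ℝ) := by
    show sA φ k1 k2 (zx x) * star (f * 1) + sB φ k1 k2 (zx x) * star (f * ev φ b.a b.k) -
      t * ((1 : ℂ) * star (f * 0)) = _
    simp only [star_mul', star_one, star_zero]
    rw [← hfc', hc, cj]
    ring
  have hsv : brJ t (su φ k1 k2 b.a b.k x) v = (‖c‖ : ℝ) := by
    show f * 1 * star (sA φ k1 k2 (zx x)) + f * ev φ b.a b.k * star (sB φ k1 k2 (zx x)) -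
      t * (f * 0 * star 1) = _
    rw [← hfc, hc, cj]
    simp only [star_add, star_mul', star_star]
    ring
  have hrf : rfJ t (su φ k1 k2 b.a b.k x) = sDm φ b.a b.k := by
    rw [sDm_rf φ b.a b.k hk t]
    exact st_PHS t _ f hf1
  have h1 := (st_SYL φ k1 k2 x b.a b.k).1
  have h2 : sI2 (sA φ k1 k2 (zx x)) (sB φ k1 k2 (zx x)) = rfJ t v := (rfJ_vv _ _).symm
  obtain ⟨m, hm⟩ : ∃ m, b.n = m + 1 := ⟨b.n - 1, by omega⟩
  have h3 := st_RUN t ‖c‖ (su φ k1 k2 b.a b.k x) v hss hvv hvs hsv m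
  unfold bN SBl.wd
  rw [sW_rep, h1, h2, ← hrf, hm, pow_succ', mul_assoc]
  have h4 : rfJ t (Vn φ k1 k2 b.a b.k (m + 1) x) =
      rfJ t (su φ k1 k2 b.a b.k x) * (rfJ t v * rfJ t (su φ k1 k2 b.a b.k x)) ^ m := by
    rw [h3]
    rfl
  rw [h4]

/-- **Row BLK2.** -/
theorem st_BLK2 : ST_BLK2 := by
  intro p q r hp hq hr b x hx1 hx2 hk hn h0
  refine ⟨bN_run p q r b x hk hn h0, ?_⟩
  ext i j
  have hd := sW_deriv (phi p) (Kp q) (Kp r) hx1 hx2 b.wd i j
  have h1 : ∀ i j, HasDerivAt (fun x => rfJ (tt (phi p) (Kp q) (Kp r) x)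
      (vv (phi p) (Kp q) (Kp r) x) i j) _ x := fun i j =>
    rfJ_deriv (tt_deriv (phi p) (Kp q) (Kp r) hx1 hx2) (vv_deriv (phi p) (Kp q) (Kp r) hx1 hx2) i j
  have h2 : ∀ i j, HasDerivAt (fun x => rfJ (tt (phi p) (Kp q) (Kp r) x)
      (Vn (phi p) (Kp q) (Kp r) b.a b.k b.n x) i j) _ x := fun i j =>
    rfJ_deriv (tt_deriv (phi p) (Kp q) (Kp r) hx1 hx2)
      (Vn_deriv (phi p) (Kp q) (Kp r) b.a b.k b.n hx1 hx2 h0) i j
  have h3 := mul_deriv h1 h2 i j
  have hev : (fun x => bN p q r b x i j) =ᶠ[𝓝 x] fun x =>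
      (rfJ (tt (phi p) (Kp q) (Kp r) x) (vv (phi p) (Kp q) (Kp r) x) *
      rfJ (tt (phi p) (Kp q) (Kp r) x) (Vn (phi p) (Kp q) (Kp r) b.a b.k b.n x)) i j := by
    have hcont : ContinuousAt (fun x => cj (phi p) (Kp q) (Kp r) b.a b.k x) x :=
      (cj_deriv (phi p) (Kp q) (Kp r) b.a b.k hx1 hx2).continuousAt
    filter_upwards [hcont.eventually_ne h0] with y hy
    rw [bN_run p q r b y hk hn hy]
  have h4 : HasDerivAt (fun x => bN p q r b x i j) (bNd p q r b x i j) x := hd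
  exact (h4.congr_of_eventuallyEq hev.symm).unique h3

end Pool.Agent.Helper6.MONO.W2
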